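import Mathlib

/-!
MP_b47c0e_co (helper57).  Hereditary top density of a symmetric kernel with values in `[0,1]`.
-/

set_option autoImplicit false
set_option linter.unusedSectionVars false

namespace Pool.Agent.OneSided

open Finset

variable {V : Type*} [DecidableEq V]

/-- total weight between two sets -/
noncomputable def E (w : V → V → ℝ) (A B : Finset V) : ℝ := ∑ x ∈ A, ∑ y ∈ B, w x y

theorem E_nonneg {w : V → V → ℝ} (h0 : ∀ x y, 0 ≤ w x y) (A B : Finset V) : 0 ≤ E w A B :=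
  sum_nonneg fun _ _ => sum_nonneg fun _ _ => h0 _ _

theorem E_le {w : V → V → ℝ} (h1 : ∀ x y, w x y ≤ 1) (A B : Finset V) :
    E w A B ≤ (A.card : ℝ) * B.card := by
  calc E w A B ≤ ∑ x ∈ A, ∑ y ∈ B, (1 : ℝ) :=
        sum_le_sum fun x _ => sum_le_sum fun y _ => h1 x y
    _ = _ := by simp

theorem E_comm {w : V → V → ℝ} (hs : ∀ x y, w x y = w y x) (A B : Finset V) :
    E w A B = E w B A := by
  unfold E
  rw [sum_comm]
  exact sum_congr rfl fun x _ => sum_congr rfl fun y _ => hs _ _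

theorem expand (k : V → V → ℝ) (hsymm : ∀ x y, k x y = k y x)
    (W : Finset V) (z : V) (hz : z ∈ W) (g : V → ℝ) :
    ∑ x ∈ W, ∑ y ∈ W, g x * g y * k x y =
      k z z * g z ^ 2 + 2 * g z * (∑ y ∈ W.erase z, g y * k z y) +
        ∑ x ∈ W.erase z, ∑ y ∈ W.erase z, g x * g y * k x y := by
  rw [← Finset.add_sum_erase _ _ hz, ← Finset.add_sum_erase _ _ hz]
  have h1 : ∑ y ∈ W.erase z, g z * g y * k z y = g z * ∑ y ∈ W.erase z, g y * k z y := by
    rw [mul_sum]; exact sum_congr rfl fun y _ => by ring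
  have h2 : ∑ x ∈ W.erase z, ∑ y ∈ W, g x * g y * k x y =
      g z * (∑ y ∈ W.erase z, g y * k z y) +
        ∑ x ∈ W.erase z, ∑ y ∈ W.erase z, g x * g y * k x y := by
    rw [mul_sum, ← sum_add_distrib]
    refine sum_congr rfl fun x _ => ?_
    rw [← Finset.add_sum_erase _ _ hz, hsymm x z]
    ring
  rw [h1, h2]
  ring

/-- rounding of a fractional set -/
theorem round (k : V → V → ℝ) (hk : ∀ x, -2 ≤ k x x) (hsymm : ∀ x y, k x y = k y x)
    (W : Finset V) (c : ℝ) (h : ∀ S, S ⊆ W → ∑ x ∈ S, ∑ y ∈ S, k x y ≤ c) (Z : Finset V) :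
    Z ⊆ W → ∀ f : V → ℝ, (∀ x ∈ W, 0 ≤ f x ∧ f x ≤ 1) →
      (∀ x ∈ W, x ∉ Z → f x = 0 ∨ f x = 1) →
      ∑ x ∈ W, ∑ y ∈ W, f x * f y * k x y ≤ c + 2 * ∑ x ∈ Z, f x := by
  classical
  induction Z using Finset.induction_on with
  | empty =>
    intro _ f hf hf01
    have : ∑ x ∈ W, ∑ y ∈ W, f x * f y * k x y =
        ∑ x ∈ W.filter (fun x => f x = 1), ∑ y ∈ W.filter (fun x => f x = 1), k x y := by
      rw [sum_filter]
      apply sum_congr rfl
      intro x hx
      split_ifs with h1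
      · rw [sum_filter]
        apply sum_congr rfl
        intro y hy
        split_ifs with h2
        · simp [h1, h2]
        · have := (hf01 y hy (by simp)).resolve_right h2
          simp [this]
      · have := (hf01 x hx (by simp)).resolve_right h1
        simp [this]
    rw [this]
    simpa using h _ (filter_subset _ _)
  | insert z Z hz ih =>
    intro hZ f hf hf01
    have hzW : z ∈ W := hZ (mem_insert_self _ _)
    have hZW : Z ⊆ W := (subset_insert _ _).trans hZ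
    have key : ∀ t : ℝ, (t = 0 ∨ t = 1) →
        k z z * t ^ 2 + 2 * t * (∑ y ∈ W.erase z, f y * k z y) +
        ∑ x ∈ W.erase z, ∑ y ∈ W.erase z, f x * f y * k x y ≤ c + 2 * ∑ x ∈ Z, f x := by
      intro t ht
      have h1 := ih hZW (Function.update f z t) (by
        intro x hx
        by_cases hxz : x = z
        · subst hxz
          rcases ht with rfl | rfl <;> simp
        · simpa [Function.update_of_ne hxz] using hf x hx) (by
        intro x hx hxZ
        by_cases hxz : x = z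
        · subst hxz
          rcases ht with rfl | rfl <;> simp
        · simpa [Function.update_of_ne hxz] using hf01 x hx (by simp [hxz, hxZ]))
      rw [expand k hsymm W z hzW] at h1
      have e1 : ∑ y ∈ W.erase z, Function.update f z t y * k z y =
          ∑ y ∈ W.erase z, f y * k z y := by
        refine sum_congr rfl fun y hy => ?_
        rw [Function.update_of_ne (ne_of_mem_erase hy)]
      have e2 : ∑ x ∈ W.erase z, ∑ y ∈ W.erase z,
            Function.update f z t x * Function.update f z t y * k x y =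
          ∑ x ∈ W.erase z, ∑ y ∈ W.erase z, f x * f y * k x y := by
        refine sum_congr rfl fun x hx => sum_congr rfl fun y hy => ?_
        rw [Function.update_of_ne (ne_of_mem_erase hy), Function.update_of_ne (ne_of_mem_erase hx)]
      have e3 : ∑ x ∈ Z, Function.update f z t x = ∑ x ∈ Z, f x := by
        refine sum_congr rfl fun x hx => ?_
        rw [Function.update_of_ne (by rintro rfl; exact hz hx)]
      rw [e1, e2, e3, Function.update_self] at h1
      exact h1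
    rw [expand k hsymm W z hzW, sum_insert hz]
    have k0 := key 0 (Or.inl rfl)
    have k1 := key 1 (Or.inr rfl)
    obtain ⟨ha, hb⟩ := hf z hzW
    have hkz := hk z
    set b := ∑ y ∈ W.erase z, f y * k z y
    set r := ∑ x ∈ W.erase z, ∑ y ∈ W.erase z, f x * f y * k x y
    set s := ∑ x ∈ Z, f x
    nlinarith [mul_nonneg ha (sub_nonneg.2 hb), mul_nonneg (by linarith : 0 ≤ k z z + 2)
      (mul_nonneg ha (sub_nonneg.2 hb)), mul_le_mul_of_nonneg_left k1 ha,
      mul_le_mul_of_nonneg_left k0 (sub_nonneg.2 hb), mul_nonneg ha ha]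

/-- from a fractional set to a set -/
theorem toset (w : V → V → ℝ) (hs : ∀ x y, w x y = w y x) (h0 : ∀ x y, 0 ≤ w x y)
    (h1 : ∀ x y, w x y ≤ 1) (W : Finset V) (t η m : ℝ) (ht0 : 0 ≤ t) (ht : t ≤ 2)
    (hη : 0 < η) (hη1 : η ≤ 2) (hm : 4 / η ≤ m) (g : V → ℝ) (hg : ∀ x ∈ W, 0 ≤ g x ∧ g x ≤ 1)
    (hgm : ∑ x ∈ W, g x = m)
    (hQ : (t + η) * m ^ 2 ≤ ∑ x ∈ W, ∑ y ∈ W, g x * g y * w x y) :
    ∃ S, S ⊆ W ∧ S.Nonempty ∧ η / 2 * m ≤ S.card ∧ t * (S.card : ℝ) ^ 2 ≤ E w S S := by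
  classical
  have hm0 : 0 < m := lt_of_lt_of_le (by positivity) hm
  obtain ⟨S, hS, hmax⟩ := exists_max_image W.powerset
    (fun S => ∑ x ∈ S, ∑ y ∈ S, (w x y - t)) ⟨∅, by simp⟩
  rw [mem_powerset] at hS
  have h2 := round (fun x y => w x y - t) (fun x => by have := h0 x x; linarith)
    (fun x y => by simp only [hs x y]) W (∑ x ∈ S, ∑ y ∈ S, (w x y - t))
    (fun T hT => hmax T (mem_powerset.2 hT)) W (subset_refl _) g hg
    (fun x hx hx' => absurd hx hx')
  have e1 : ∑ x ∈ W, ∑ y ∈ W, g x * g y * (w x y - t) =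
      ∑ x ∈ W, ∑ y ∈ W, g x * g y * w x y - t * m ^ 2 := by
    rw [← hgm, sq, sum_mul_sum, mul_sum, ← sum_sub_distrib]
    refine sum_congr rfl fun x _ => ?_
    rw [mul_sum, ← sum_sub_distrib]
    refine sum_congr rfl fun y _ => ?_
    ring
  have e2 : ∑ x ∈ S, ∑ y ∈ S, (w x y - t) = E w S S - t * (S.card : ℝ) ^ 2 := by
    unfold E
    simp only [sum_sub_distrib, sum_const, nsmul_eq_mul]
    ring
  rw [e1, e2, hgm] at h2
  have h3 : 4 ≤ m * η := by rwa [div_le_iff₀ hη] at hm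
  have h4 : η / 2 * m ^ 2 ≤ E w S S - t * (S.card : ℝ) ^ 2 := by nlinarith
  have hE : E w S S ≤ (S.card : ℝ) ^ 2 := by
    have := E_le h1 S S
    rwa [← sq] at this
  have h5 : η / 2 * m ^ 2 ≤ (S.card : ℝ) ^ 2 := by
    nlinarith [mul_nonneg ht0 (sq_nonneg (S.card : ℝ))]
  have h6 : η / 2 * m ≤ S.card := by
    apply le_of_sq_le_sq _ (by positivity)
    calc (η / 2 * m) ^ 2 = η / 2 * (η / 2 * m ^ 2) := by ring
      _ ≤ 1 * (η / 2 * m ^ 2) := mul_le_mul_of_nonneg_right (by linarith) (by positivity)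
      _ ≤ _ := by linarith
  refine ⟨S, hS, ?_, h6, ?_⟩
  · rw [← card_pos]
    have : (0 : ℝ) < S.card := lt_of_lt_of_le (by positivity) h6
    exact_mod_cast this
  · have : 0 ≤ η / 2 * m ^ 2 := by positivity
    linarith

/-- many elements have nearly the average value -/
theorem topdeg (A : Finset V) (g : V → ℝ) (hg : ∀ x ∈ A, 0 ≤ g x ∧ g x ≤ 1) (s θ : ℝ)
    (hθ0 : 0 < θ) (hθ : θ ≤ 1) (hs : s * A.card ≤ ∑ x ∈ A, g x) :
    θ * A.card ≤ ((A.filter fun x => s - θ ≤ g x).card : ℝ) := by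
  classical
  set P := A.filter fun x => s - θ ≤ g x with hP
  have hA : (A.card : ℝ) = P.card + (A.filter fun x => ¬ s - θ ≤ g x).card := by
    rw [hP]
    exact_mod_cast (card_filter_add_card_filter_not (s := A) (fun x => s - θ ≤ g x)).symm
  set N := A.filter fun x => ¬ s - θ ≤ g x with hN
  by_cases hneg : s - θ < 0
  · have : N = ∅ := by
      rw [hN, filter_eq_empty_iff]
      intro x hx
      have := (hg x hx).1
      intro hcon
      exact hcon (by linarith)
    rw [this] at hA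
    simp at hA
    rw [hA]
    nlinarith [(Nat.cast_nonneg P.card : (0 : ℝ) ≤ P.card)]
  · rw [not_lt] at hneg
    have h1 : ∑ x ∈ A, g x = ∑ x ∈ P, g x + ∑ x ∈ N, g x := by
      rw [hP, hN]
      exact (sum_filter_add_sum_filter_not A _ _).symm
    have h2 : ∑ x ∈ P, g x ≤ P.card := by
      calc ∑ x ∈ P, g x ≤ ∑ x ∈ P, (1 : ℝ) :=
            sum_le_sum fun x hx => (hg x (mem_filter.1 hx).1).2
        _ = _ := by simp
    have h3 : ∑ x ∈ N, g x ≤ (s - θ) * N.card := by
      calc ∑ x ∈ N, g x ≤ ∑ x ∈ N, (s - θ) :=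
            sum_le_sum fun x hx => by
              have := (mem_filter.1 hx).2
              exact (not_le.1 this).le
        _ = _ := by simp only [sum_const, nsmul_eq_mul]; ring
    have h4 : (0 : ℝ) ≤ P.card := Nat.cast_nonneg _
    nlinarith

/-- every large set contains a large set of density at least `t` -/
def Her (w : V → V → ℝ) (t γ ρ : ℝ) : Prop :=
  ∀ U : Finset V, ρ ≤ U.card →
    ∃ X, X ⊆ U ∧ X.Nonempty ∧ γ * U.card ≤ X.card ∧ t * (X.card : ℝ) ^ 2 ≤ E w X X

/-- every large set has a pair of subsets with larger density -/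
def Irr (w : V → V → ℝ) (α δ σ : ℝ) : Prop :=
  ∀ X : Finset V, σ ≤ X.card → ∀ t : ℝ, t * (X.card : ℝ) ^ 2 ≤ E w X X →
    ∃ A, A ⊆ X ∧ ∃ B, B ⊆ X ∧ α * X.card ≤ A.card ∧ α * X.card ≤ B.card ∧
      (t + δ) * (A.card * B.card) ≤ E w A B

/-- a part of `A` of density at least `t`, with large degrees into `B` -/
theorem choose_part (w : V → V → ℝ) (h0 : ∀ x y, 0 ≤ w x y) (h1 : ∀ x y, w x y ≤ 1)
    {t γ ρ s θ : ℝ} (hγ : 0 ≤ γ) (hθ0 : 0 < θ) (hθ : θ ≤ 1) (hH : Her w t γ ρ) (A B : Finset V)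
    (hB : B.Nonempty) (hA : ρ ≤ θ * A.card) (hs : s * (A.card * B.card) ≤ E w A B) :
    ∃ A', A' ⊆ A ∧ A'.Nonempty ∧ γ * (θ * A.card) ≤ A'.card ∧
      t * (A'.card : ℝ) ^ 2 ≤ E w A' A' ∧ (s - θ) * (A'.card * B.card) ≤ E w A' B := by
  classical
  have hBc : (0 : ℝ) < B.card := by exact_mod_cast hB.card_pos
  have hg : ∀ x ∈ A, 0 ≤ (∑ y ∈ B, w x y) / B.card ∧ (∑ y ∈ B, w x y) / B.card ≤ 1 := by
    intro x _
    refine ⟨div_nonneg (sum_nonneg fun _ _ => h0 _ _) hBc.le, ?_⟩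
    rw [div_le_one hBc]
    calc ∑ y ∈ B, w x y ≤ ∑ y ∈ B, (1 : ℝ) := sum_le_sum fun y _ => h1 x y
      _ = _ := by simp
  have hs' : s * A.card ≤ ∑ x ∈ A, (∑ y ∈ B, w x y) / B.card := by
    rw [← sum_div, le_div_iff₀ hBc]
    unfold E at hs
    linarith
  have h2 := topdeg A _ hg s θ hθ0 hθ hs'
  obtain ⟨X, hX, hXn, hXc, hXt⟩ := hH _ (hA.trans h2)
  refine ⟨X, hX.trans (filter_subset _ _), hXn, le_trans (mul_le_mul_of_nonneg_left h2 hγ) hXc,
    hXt, ?_⟩
  have h3 : ∀ x ∈ X, (s - θ) * B.card ≤ ∑ y ∈ B, w x y := by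
    intro x hx
    have := (mem_filter.1 (hX hx)).2
    rwa [le_div_iff₀ hBc] at this
  calc (s - θ) * (X.card * B.card) = ∑ x ∈ X, (s - θ) * B.card := by
        simp; ring
    _ ≤ _ := sum_le_sum h3

end Pool.Agent.OneSided
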