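import Pool.Agent.OneSided.Step

/-!
MP_b47c0e_co (helper57).  The one-sided regularity theorem for kernels, and its averaged form for
partitions.
-/

set_option autoImplicit false
set_option linter.unusedSectionVars false

namespace Pool.Agent.OneSided

open Finset

variable {V : Type*} [DecidableEq V]

/-- one-sided regular sets: the size is polynomial in `α` for fixed `δ` -/
theorem one_sided [Fintype V] [Nonempty V] (w : V → V → ℝ) (hs : ∀ x y, w x y = w y x)
    (h0 : ∀ x y, 0 ≤ w x y) (h1 : ∀ x y, w x y ≤ 1) {α δ : ℝ} (hδ0 : 0 < δ) (hδ1 : δ ≤ 1)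
    (hα0 : 0 < α) (hα1 : α ≤ 1) :
    ∃ X : Finset V, X.Nonempty ∧
      (α * δ ^ 2 / 128) ^ ((2 : ℝ) ^ (6 / δ)) * Fintype.card V ≤ X.card ∧
      ∀ A, A ⊆ X → ∀ B, B ⊆ X → α * X.card ≤ A.card → α * X.card ≤ B.card →
        E w A B * (X.card : ℝ) ^ 2 ≤ (E w X X + δ * (X.card : ℝ) ^ 2) * (A.card * B.card) := by
  classical
  obtain ⟨a, ha⟩ : ∃ a, a = α * δ ^ 2 / 128 := ⟨_, rfl⟩
  have ha0 : 0 < a := by rw [ha]; positivity
  have hδ2 : δ ^ 2 ≤ 1 := by nlinarith
  have ha1 : a ≤ 1 := by
    rw [ha]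
    have : α * δ ^ 2 ≤ 1 * 1 := mul_le_mul hα1 hδ2 (by positivity) (by norm_num)
    linarith
  set n : ℝ := (Fintype.card V : ℝ) with hn
  have hn0 : 0 < n := by rw [hn]; exact_mod_cast Fintype.card_pos
  set J : ℕ := ⌊4 / δ⌋₊ + 1 with hJ
  have hJ1 : (J : ℝ) ≤ 4 / δ + 1 := by
    rw [hJ]; push_cast
    have := Nat.floor_le (show 0 ≤ 4 / δ by positivity)
    linarith
  have hJ2 : 4 / δ < J := by
    rw [hJ]; push_cast
    exact Nat.lt_floor_add_one _
  have hJδ : (J : ℝ) * δ ≤ 4 + δ := by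
    have := mul_le_mul_of_nonneg_right hJ1 hδ0.le
    have e : (4 / δ + 1) * δ = 4 + δ := by field_simp
    linarith
  have hJδ2 : 4 < (J : ℝ) * δ := by
    rwa [div_lt_iff₀ hδ0] at hJ2
  set γ : ℝ := a ^ (2 ^ J - 1) with hγ
  have hγ0 : 0 < γ := by positivity
  have hβ : a ^ ((2 : ℝ) ^ (6 / δ)) ≤ γ ^ 2 := by
    have e1 : γ ^ 2 = a ^ (((2 ^ J - 1) * 2 : ℕ) : ℝ) := by
      rw [Real.rpow_natCast, hγ, ← pow_mul]
    rw [e1]
    apply Real.rpow_le_rpow_of_exponent_ge ha0 ha1
    have e2 : (((2 ^ J - 1) * 2 : ℕ) : ℝ) ≤ (2 : ℝ) ^ (J + 1) := by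
      have : (2 ^ J - 1) * 2 ≤ 2 ^ (J + 1) := by
        rw [pow_succ]
        exact Nat.mul_le_mul_right _ (Nat.sub_le _ _)
      exact_mod_cast this
    refine e2.trans ?_
    have e3 : (2 : ℝ) ^ (J + 1) = (2 : ℝ) ^ ((J + 1 : ℕ) : ℝ) := (Real.rpow_natCast _ _).symm
    rw [e3]
    apply Real.rpow_le_rpow_of_exponent_le (by norm_num)
    push_cast
    have e4 : (2 : ℝ) ≤ 2 / δ := by
      rw [le_div_iff₀ hδ0]; linarith
    have e5 : 6 / δ = 4 / δ + 2 / δ := by ring
    linarith
  rw [← ha]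
  by_cases hbig : 1 ≤ γ ^ 2 * n
  · have hnot : ¬ Irr w α δ (γ ^ 2 * n) := by
      intro hI
      have hH := iterate w hs h0 h1 hδ0 hδ1 hα0 hα1 hbig ha hI J hJδ
      rw [← hγ] at hH
      have e1 : γ ^ 2 * n / γ ^ 2 = n := by field_simp
      rw [e1] at hH
      obtain ⟨X, -, hXn, -, hXt⟩ := hH univ (by rw [card_univ])
      have hX : (0 : ℝ) < X.card := by exact_mod_cast hXn.card_pos
      have hX2 : (0 : ℝ) < (X.card : ℝ) ^ 2 := by positivity
      have h3 := hXt.trans (E_le h1 X X)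
      nlinarith
    unfold Irr at hnot
    push Not at hnot
    obtain ⟨X, hX, t, ht, hAB⟩ := hnot
    refine ⟨X, ?_, ?_, ?_⟩
    · rw [← card_pos]
      have : (0 : ℝ) < X.card := by linarith
      exact_mod_cast this
    · exact (mul_le_mul_of_nonneg_right hβ hn0.le).trans hX
    · intro A hA B hB hAc hBc
      have h3 := (hAB A hA B hB hAc hBc).le
      have hX2 : (0 : ℝ) ≤ (X.card : ℝ) ^ 2 := by positivity
      have hAB0 : (0 : ℝ) ≤ (A.card : ℝ) * B.card := by positivity
      calc E w A B * (X.card : ℝ) ^ 2 ≤ ((t + δ) * (A.card * B.card)) * (X.card : ℝ) ^ 2 :=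
            mul_le_mul_of_nonneg_right h3 hX2
        _ = (t * (X.card : ℝ) ^ 2 + δ * (X.card : ℝ) ^ 2) * (A.card * B.card) := by ring
        _ ≤ _ := mul_le_mul_of_nonneg_right (by linarith) hAB0
  · rw [not_le] at hbig
    obtain ⟨v⟩ := ‹Nonempty V›
    refine ⟨{v}, singleton_nonempty v, ?_, ?_⟩
    · simp only [card_singleton, Nat.cast_one]
      exact ((mul_le_mul_of_nonneg_right hβ hn0.le).trans_lt hbig).le
    · intro A hA B hB hAc hBc
      simp only [card_singleton, Nat.cast_one, mul_one] at hAc hBc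
      have hA' : A = {v} := by
        rcases subset_singleton_iff.1 hA with h | h
        · rw [h] at hAc
          simp at hAc
          linarith
        · exact h
      have hB' : B = {v} := by
        rcases subset_singleton_iff.1 hB with h | h
        · rw [h] at hBc
          simp at hBc
          linarith
        · exact h
      rw [hA', hB']
      simp
      exact hδ0.le

/-- the averaged form, for two partitions -/
theorem averaged (w : V → V → ℝ) (h1 : ∀ x y, w x y ≤ 1) {α δ : ℝ} (hδ0 : 0 < δ) (hα0 : 0 < α) (X : Finset V)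
    (hX : X.Nonempty) (k : ℕ) (D : ℝ) (hD : E w X X = D * (X.card : ℝ) ^ 2) (hD0 : 0 ≤ D)
    (h : ∀ A, A ⊆ X → ∀ B, B ⊆ X → α * X.card ≤ A.card → α * X.card ≤ B.card →
        E w A B * (X.card : ℝ) ^ 2 ≤ (E w X X + δ * (X.card : ℝ) ^ 2) * (A.card * B.card))
    (f g : V → Fin k) :
    ∑ i, ∑ j, |E w (X.filter (f · = i)) (X.filter (g · = j)) -
        D * ((X.filter (f · = i)).card * (X.filter (g · = j)).card)| ≤
      2 * (δ + 2 * k * α) * (X.card : ℝ) ^ 2 := by
  classical
  set n : ℝ := (X.card : ℝ) with hn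
  have hn0 : 0 < n := by rw [hn]; exact_mod_cast hX.card_pos
  set p : Fin k → ℝ := fun i => ((X.filter (f · = i)).card : ℝ) with hp
  set q : Fin k → ℝ := fun j => ((X.filter (g · = j)).card : ℝ) with hq
  have hp0 : ∀ i, 0 ≤ p i := fun i => Nat.cast_nonneg _
  have hq0 : ∀ i, 0 ≤ q i := fun i => Nat.cast_nonneg _
  have hps : ∑ i, p i = n := by
    rw [hp, hn, card_eq_sum_card_fiberwise (f := f) (s := X) (t := univ) (fun _ _ => mem_coe.2 (mem_univ _))]
    push_cast
    rfl
  have hqs : ∑ i, q i = n := by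
    rw [hq, hn, card_eq_sum_card_fiberwise (f := g) (s := X) (t := univ) (fun _ _ => mem_coe.2 (mem_univ _))]
    push_cast
    rfl
  have hEs : ∑ i, ∑ j, E w (X.filter (f · = i)) (X.filter (g · = j)) = D * n ^ 2 := by
    rw [← hD]
    have e1 : ∀ i, ∑ j, E w (X.filter (f · = i)) (X.filter (g · = j)) =
        ∑ x ∈ X.filter (f · = i), ∑ y ∈ X, w x y := by
      intro i
      unfold E
      rw [sum_comm]
      refine sum_congr rfl fun x _ => ?_
      exact sum_fiberwise X g (fun y => w x y)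
    rw [sum_congr rfl fun i _ => e1 i]
    unfold E
    exact sum_fiberwise X f (fun x => ∑ y ∈ X, w x y)
  have key : ∀ i j, |E w (X.filter (f · = i)) (X.filter (g · = j)) - D * (p i * q j)| ≤
      2 * (δ * (p i * q j) + α * n * q j + p i * (α * n)) -
        (E w (X.filter (f · = i)) (X.filter (g · = j)) - D * (p i * q j)) := by
    intro i j
    set e := E w (X.filter (f · = i)) (X.filter (g · = j)) with he
    have he1 : e ≤ p i * q j := E_le h1 _ _
    have hDpq : 0 ≤ D * (p i * q j) := mul_nonneg hD0 (mul_nonneg (hp0 i) (hq0 j))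
    have hr1 : 0 ≤ δ * (p i * q j) := mul_nonneg hδ0.le (mul_nonneg (hp0 i) (hq0 j))
    have hr2 : 0 ≤ α * n * q j := mul_nonneg (by positivity) (hq0 j)
    have hr3 : 0 ≤ p i * (α * n) := mul_nonneg (hp0 i) (by positivity)
    have hmain : e - D * (p i * q j) ≤ δ * (p i * q j) + α * n * q j + p i * (α * n) := by
      by_cases hi : α * n ≤ p i
      · by_cases hj : α * n ≤ q j
        · have h3 := h _ (filter_subset (f · = i) X) _ (filter_subset (g · = j) X) hi hj
          rw [hD] at h3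
          have h4 : e * n ^ 2 ≤ ((D + δ) * (p i * q j)) * n ^ 2 := by
            calc e * n ^ 2 ≤ (D * n ^ 2 + δ * n ^ 2) * (p i * q j) := h3
              _ = _ := by ring
          have h5 : e ≤ (D + δ) * (p i * q j) := le_of_mul_le_mul_right h4 (by positivity)
          linarith
        · rw [not_le] at hj
          have : p i * q j ≤ p i * (α * n) := mul_le_mul_of_nonneg_left hj.le (hp0 i)
          linarith
      · rw [not_le] at hi
        have : p i * q j ≤ α * n * q j := mul_le_mul_of_nonneg_right hi.le (hq0 j)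
        linarith
    rw [abs_le]
    constructor <;> linarith
  have hbound : ∑ i, ∑ j, (2 * (δ * (p i * q j) + α * n * q j + p i * (α * n)) -
        (E w (X.filter (f · = i)) (X.filter (g · = j)) - D * (p i * q j))) =
      2 * (δ + 2 * k * α) * n ^ 2 := by
    have e1 : ∑ i, ∑ j, p i * q j = n * n := by
      rw [← hps]
      nth_rewrite 2 [hps]
      rw [← hqs, sum_mul_sum]
    have e2 : ∑ _i : Fin k, ∑ j, α * n * q j = k * (α * n * n) := by
      rw [sum_const, card_univ, Fintype.card_fin, nsmul_eq_mul, ← mul_sum, hqs]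
    have e3 : ∑ i, ∑ _j : Fin k, p i * (α * n) = k * (α * n * n) := by
      simp only [sum_const, card_univ, Fintype.card_fin, nsmul_eq_mul]
      rw [← mul_sum, ← sum_mul, hps]
      ring
    have e0 : ∑ i, ∑ j, (2 * (δ * (p i * q j) + α * n * q j + p i * (α * n)) -
        (E w (X.filter (f · = i)) (X.filter (g · = j)) - D * (p i * q j))) =
        2 * (δ * (∑ i, ∑ j, p i * q j) + (∑ _i : Fin k, ∑ j, α * n * q j) +
          ∑ i, ∑ _j : Fin k, p i * (α * n)) -
        ((∑ i, ∑ j, E w (X.filter (f · = i)) (X.filter (g · = j))) -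
          D * ∑ i, ∑ j, p i * q j) := by
      rw [mul_sum, mul_sum, ← sum_add_distrib, ← sum_add_distrib, mul_sum, ← sum_sub_distrib,
        ← sum_sub_distrib]
      refine sum_congr rfl fun i _ => ?_
      rw [mul_sum, mul_sum, ← sum_add_distrib, ← sum_add_distrib, mul_sum, ← sum_sub_distrib,
        ← sum_sub_distrib]
    rw [e0, e1, e2, e3, hEs]
    ring
  calc _ ≤ ∑ i, ∑ j, (2 * (δ * (p i * q j) + α * n * q j + p i * (α * n)) -
        (E w (X.filter (f · = i)) (X.filter (g · = j)) - D * (p i * q j))) :=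
        sum_le_sum fun i _ => sum_le_sum fun j _ => key i j
    _ = _ := hbound

end Pool.Agent.OneSided
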