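import Pool.Agent.OneSided.Basic

/-!
MP_b47c0e_co (helper57).  One step (the hereditary top density rises by `δ / 4`), the iteration,
and the one-sided regularity theorem for kernels.
-/

set_option autoImplicit false
set_option linter.unusedSectionVars false

namespace Pool.Agent.OneSided

open Finset

variable {V : Type*} [DecidableEq V]

/-- values of the bilinear form at multiples of indicators -/
theorem bil (w : V → V → ℝ) (W A B : Finset V) (hA : A ⊆ W) (hB : B ⊆ W) (a b : ℝ) :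
    ∑ x ∈ W, ∑ y ∈ W, (if x ∈ A then a else 0) * (if y ∈ B then b else 0) * w x y =
      a * b * E w A B := by
  have h1 : ∀ x ∈ W, ∑ y ∈ W, (if x ∈ A then a else 0) * (if y ∈ B then b else 0) * w x y =
      if x ∈ A then ∑ y ∈ B, a * b * w x y else 0 := by
    intro x _
    split_ifs with hx
    · have h2 : ∀ y ∈ W, a * (if y ∈ B then b else 0) * w x y =
          if y ∈ B then a * b * w x y else 0 := by
        intro y _
        split_ifs <;> simp
      rw [sum_congr rfl h2, sum_ite_mem, inter_eq_right.2 hB]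
    · simp
  rw [sum_congr rfl h1, sum_ite_mem, inter_eq_right.2 hA]
  unfold E
  simp only [mul_sum]

theorem bil_sum (W A : Finset V) (hA : A ⊆ W) (a : ℝ) :
    ∑ x ∈ W, (if x ∈ A then a else 0) = a * A.card := by
  rw [sum_ite_mem, inter_eq_right.2 hA, sum_const, nsmul_eq_mul]
  ring

/-- the half and half mixture of `A` and `B` -/
theorem mixture (w : V → V → ℝ) (hs : ∀ x y, w x y = w y x) (W A B : Finset V) (hA : A ⊆ W)
    (hB : B ⊆ W) (hAn : A.Nonempty) (hBn : B.Nonempty) (t u m : ℝ) (hm0 : 0 ≤ m)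
    (hmA : m ≤ A.card) (hmB : m ≤ B.card) (h1 : t * (A.card : ℝ) ^ 2 ≤ E w A A)
    (h2 : t * (B.card : ℝ) ^ 2 ≤ E w B B) (h3 : u * (A.card * B.card) ≤ E w A B) :
    ∃ g : V → ℝ, (∀ x, 0 ≤ g x ∧ g x ≤ 1) ∧ ∑ x ∈ W, g x = m ∧
      (t + u) / 2 * m ^ 2 ≤ ∑ x ∈ W, ∑ y ∈ W, g x * g y * w x y := by
  have hp : (0 : ℝ) < A.card := by exact_mod_cast hAn.card_pos
  have hq : (0 : ℝ) < B.card := by exact_mod_cast hBn.card_pos
  set p : ℝ := (A.card : ℝ) with hpdef
  set q : ℝ := (B.card : ℝ) with hqdef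
  set a : ℝ := m / 2 / p with ha
  set b : ℝ := m / 2 / q with hb
  have ha0 : 0 ≤ a := by positivity
  have hb0 : 0 ≤ b := by positivity
  have ha1 : a ≤ 1 / 2 := by
    rw [ha, div_le_iff₀ hp]; linarith
  have hb1 : b ≤ 1 / 2 := by
    rw [hb, div_le_iff₀ hq]; linarith
  have hap : a * p = m / 2 := by rw [ha]; field_simp
  have hbq : b * q = m / 2 := by rw [hb]; field_simp
  refine ⟨fun x => (if x ∈ A then a else 0) + (if x ∈ B then b else 0), ?_, ?_, ?_⟩
  · intro x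
    dsimp only
    split_ifs <;> constructor <;> linarith
  · rw [sum_add_distrib, bil_sum W A hA, bil_sum W B hB, ← hpdef, ← hqdef, hap, hbq]
    ring
  · have e : ∑ x ∈ W, ∑ y ∈ W, ((if x ∈ A then a else 0) + (if x ∈ B then b else 0)) *
        ((if y ∈ A then a else 0) + (if y ∈ B then b else 0)) * w x y =
        a * a * E w A A + a * b * E w A B + (b * a * E w B A + b * b * E w B B) := by
      rw [← bil w W A A hA hA, ← bil w W A B hA hB, ← bil w W B A hB hA, ← bil w W B B hB hB]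
      rw [← sum_add_distrib, ← sum_add_distrib, ← sum_add_distrib]
      refine sum_congr rfl fun x _ => ?_
      rw [← sum_add_distrib, ← sum_add_distrib, ← sum_add_distrib]
      refine sum_congr rfl fun y _ => ?_
      ring
    rw [e, E_comm hs B A]
    have i1 : t * (m / 2) ^ 2 ≤ a * a * E w A A := by
      calc t * (m / 2) ^ 2 = a * a * (t * p ^ 2) := by rw [← hap]; ring
        _ ≤ _ := mul_le_mul_of_nonneg_left h1 (by positivity)
    have i2 : t * (m / 2) ^ 2 ≤ b * b * E w B B := by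
      calc t * (m / 2) ^ 2 = b * b * (t * q ^ 2) := by rw [← hbq]; ring
        _ ≤ _ := mul_le_mul_of_nonneg_left h2 (by positivity)
    have i3 : u * (m / 2) ^ 2 ≤ a * b * E w A B := by
      calc u * (m / 2) ^ 2 = u * ((a * p) * (b * q)) := by rw [hap, hbq]; ring
        _ = a * b * (u * (p * q)) := by ring
        _ ≤ _ := mul_le_mul_of_nonneg_left h3 (by positivity)
    have i4 : b * a * E w A B = a * b * E w A B := by ring
    rw [i4]
    nlinarith

/-- one step: the hereditary density rises by `δ / 4` -/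
theorem step (w : V → V → ℝ) (hs : ∀ x y, w x y = w y x) (h0 : ∀ x y, 0 ≤ w x y)
    (h1 : ∀ x y, w x y ≤ 1) {t γ ρ ρ' α δ σ : ℝ} (ht0 : 0 ≤ t) (ht1 : t ≤ 1) (hδ0 : 0 < δ)
    (hδ1 : δ ≤ 1) (hγ0 : 0 < γ) (hα0 : 0 < α) (hH : Her w t γ ρ)
    (hI : Irr w α δ σ) (c0 : ρ ≤ ρ') (c1 : σ ≤ γ * ρ') (c2 : ρ ≤ δ / 8 * (α * (γ * ρ')))
    (c3 : 32 / δ ≤ γ * (δ / 8 * (α * (γ * ρ')))) :
    Her w (t + δ / 4) (α * δ ^ 2 / 128 * γ ^ 2) ρ' := by
  intro U hU
  obtain ⟨X, hXU, hXn, hXc, hXt⟩ := hH U (c0.trans hU)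
  have hXc' : γ * ρ' ≤ X.card := (mul_le_mul_of_nonneg_left hU hγ0.le).trans hXc
  obtain ⟨A, hAX, B, hBX, hA, hB, hAB⟩ := hI X (c1.trans hXc') t hXt
  have hXpos : (0 : ℝ) < X.card := by exact_mod_cast hXn.card_pos
  have hBn : B.Nonempty := by
    rw [← card_pos]
    have : (0 : ℝ) < B.card := lt_of_lt_of_le (by positivity) hB
    exact_mod_cast this
  have hθ : (0 : ℝ) ≤ δ / 8 := by positivity
  have hAρ : ρ ≤ δ / 8 * A.card :=
    c2.trans (mul_le_mul_of_nonneg_left ((mul_le_mul_of_nonneg_left hXc' hα0.le).trans hA) hθ)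
  have hBρ : ρ ≤ δ / 8 * B.card :=
    c2.trans (mul_le_mul_of_nonneg_left ((mul_le_mul_of_nonneg_left hXc' hα0.le).trans hB) hθ)
  obtain ⟨A', hA'A, hA'n, hA'c, hA't, hA'B⟩ := choose_part w h0 h1 hγ0.le
    (θ := δ / 8) (by positivity) (by linarith) hH A B hBn hAρ hAB
  obtain ⟨B', hB'B, hB'n, hB'c, hB't, hB'A⟩ := choose_part w h0 h1 hγ0.le
    (θ := δ / 8) (s := t + δ - δ / 8) (by positivity) (by linarith) hH B A' hA'n hBρ
    (by rw [E_comm hs]; linarith)
  -- the mixture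
  have hAU : A' ⊆ U := hA'A.trans (hAX.trans hXU)
  have hBU : B' ⊆ U := hB'B.trans (hBX.trans hXU)
  set m : ℝ := min (A'.card : ℝ) B'.card with hm
  have hm0 : 0 ≤ m := le_min (Nat.cast_nonneg _) (Nat.cast_nonneg _)
  have hmlow : γ * (δ / 8 * (α * X.card)) ≤ m := by
    refine le_min (le_trans ?_ hA'c) (le_trans ?_ hB'c)
    · exact mul_le_mul_of_nonneg_left (mul_le_mul_of_nonneg_left hA hθ) hγ0.le
    · exact mul_le_mul_of_nonneg_left (mul_le_mul_of_nonneg_left hB hθ) hγ0.le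
  have hm32 : 32 / δ ≤ m := by
    refine c3.trans (le_trans ?_ hmlow)
    exact mul_le_mul_of_nonneg_left (mul_le_mul_of_nonneg_left
      (mul_le_mul_of_nonneg_left hXc' hα0.le) hθ) hγ0.le
  obtain ⟨g, hg, hgm, hgQ⟩ := mixture w hs U A' B' hAU hBU hA'n hB'n t (t + 6 * δ / 8) m hm0
    (min_le_left _ _) (min_le_right _ _) hA't hB't (by
      rw [E_comm hs]
      have e1 : (t + δ - δ / 8 - δ / 8) * ((B'.card : ℝ) * A'.card) =
        (t + 6 * δ / 8) * ((A'.card : ℝ) * B'.card) := by ring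
      rw [← e1]
      exact hB'A)
  obtain ⟨S, hSU, hSn, hSc, hSt⟩ := toset w hs h0 h1 U (t + δ / 4) (δ / 8) m (by positivity)
    (by linarith) (by positivity) (by linarith) (by
      have : 4 / (δ / 8) = 32 / δ := by field_simp; norm_num
      rw [this]; exact hm32) g (fun x _ => hg x) hgm (by
      refine le_trans (le_of_eq ?_) hgQ
      ring)
  refine ⟨S, hSU, hSn, ?_, hSt⟩
  refine le_trans ?_ hSc
  calc α * δ ^ 2 / 128 * γ ^ 2 * U.card = δ / 8 / 2 * (γ * (δ / 8 * (α * (γ * U.card)))) := by ring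
    _ ≤ δ / 8 / 2 * (γ * (δ / 8 * (α * X.card))) := by
        refine mul_le_mul_of_nonneg_left (mul_le_mul_of_nonneg_left (mul_le_mul_of_nonneg_left
          (mul_le_mul_of_nonneg_left hXc hα0.le) hθ) hγ0.le) (by positivity)
    _ ≤ _ := mul_le_mul_of_nonneg_left hmlow (by positivity)

/-- the iteration -/
theorem iterate (w : V → V → ℝ) (hs : ∀ x y, w x y = w y x) (h0 : ∀ x y, 0 ≤ w x y)
    (h1 : ∀ x y, w x y ≤ 1) {α δ σ a : ℝ} (hδ0 : 0 < δ) (hδ1 : δ ≤ 1) (hα0 : 0 < α)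
    (hα1 : α ≤ 1) (hσ : 1 ≤ σ) (ha : a = α * δ ^ 2 / 128) (hI : Irr w α δ σ) (j : ℕ) :
    (j : ℝ) * δ ≤ 4 + δ → Her w (j * δ / 4) (a ^ (2 ^ j - 1)) (σ / (a ^ (2 ^ j - 1)) ^ 2) := by
  have ha0 : 0 < a := by rw [ha]; positivity
  have hδ2 : δ ^ 2 ≤ 1 := by nlinarith
  have ha1 : a ≤ 1 / 128 := by
    rw [ha]
    have : α * δ ^ 2 ≤ 1 * 1 := mul_le_mul hα1 hδ2 (by positivity) (by norm_num)
    linarith
  induction j with
  | zero =>
    intro _ U hU
    simp only [pow_zero, Nat.sub_self, one_pow, div_one] at hU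
    have hU1 : (0 : ℝ) < U.card := by linarith
    refine ⟨U, subset_rfl, ?_, by simp, by simpa using E_nonneg h0 U U⟩
    rw [← card_pos]
    exact_mod_cast hU1
  | succ j ih =>
    intro hj
    push_cast at hj
    have hj' : (j : ℝ) * δ ≤ 4 := by nlinarith
    set γ : ℝ := a ^ (2 ^ j - 1) with hγ
    have hγ0 : 0 < γ := by positivity
    have hγ1 : γ ≤ 1 := pow_le_one₀ ha0.le (by linarith)
    have hnext : a ^ (2 ^ (j + 1) - 1) = a * γ ^ 2 := by
      rw [hγ, ← pow_mul, ← pow_succ']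
      congr 1
      have : 1 ≤ 2 ^ j := Nat.one_le_two_pow
      rw [pow_succ]
      omega
    rw [hnext]
    have hρ' : σ / (a * γ ^ 2) ^ 2 = σ / (a ^ 2 * γ ^ 4) := by
      congr 1; ring
    have hst : ((j + 1 : ℕ) : ℝ) * δ / 4 = j * δ / 4 + δ / 4 := by push_cast; ring
    rw [hst, ha, ← ha, hρ']
    have hs0 : 0 < σ := by linarith
    -- `σ / γ ^ 4` is at least `σ / γ ^ 2` and so on
    have k1 : γ * (σ / (a ^ 2 * γ ^ 4)) = σ / (a ^ 2 * γ ^ 3) := by
      field_simp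
    have k2 : δ / 8 * (α * (γ * (σ / (a ^ 2 * γ ^ 4)))) = 2048 * σ / (α * δ ^ 3 * γ ^ 3) := by
      rw [k1, ha]; field_simp; norm_num
    have k3 : γ * (δ / 8 * (α * (γ * (σ / (a ^ 2 * γ ^ 4))))) =
        2048 * σ / (α * δ ^ 3 * γ ^ 2) := by
      rw [k2]; field_simp
    have hαδ : α * δ ^ 3 ≤ 1 := by
      have h3 : δ ^ 3 ≤ 1 := pow_le_one₀ hδ0.le hδ1
      calc α * δ ^ 3 ≤ 1 * 1 := mul_le_mul hα1 h3 (by positivity) (by norm_num)
        _ = 1 := by norm_num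
    have hγ32 : γ ^ 3 ≤ γ ^ 2 := pow_le_pow_of_le_one hγ0.le hγ1 (by norm_num)
    have hγ2 : γ ^ 2 ≤ 1 := pow_le_one₀ hγ0.le hγ1
    have hγ3 : γ ^ 3 ≤ 1 := pow_le_one₀ hγ0.le hγ1
    have ha2 : a ^ 2 ≤ 1 := pow_le_one₀ ha0.le (by linarith)
    have hstep := step w hs h0 h1 (t := j * δ / 4) (γ := γ) (ρ := σ / γ ^ 2)
      (ρ' := σ / (a ^ 2 * γ ^ 4)) (α := α) (δ := δ) (σ := σ) (by positivity) (by linarith) hδ0 hδ1
      hγ0 hα0 (ih (by linarith)) hI ?_ ?_ ?_ ?_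
    · rw [ha]
      rw [ha] at hstep
      exact hstep
    · apply div_le_div_of_nonneg_left hs0.le (by positivity)
      calc a ^ 2 * γ ^ 4 = (a ^ 2 * γ ^ 2) * γ ^ 2 := by ring
        _ ≤ 1 * γ ^ 2 := mul_le_mul_of_nonneg_right (by nlinarith [sq_nonneg a, sq_nonneg γ])
            (by positivity)
        _ = γ ^ 2 := one_mul _
    · rw [k1, le_div_iff₀ (by positivity)]
      calc σ * (a ^ 2 * γ ^ 3) ≤ σ * 1 := mul_le_mul_of_nonneg_left
            (by nlinarith [pow_pos ha0 2, pow_pos hγ0 3]) hs0.le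
        _ = σ := mul_one _
    · rw [k2, div_le_div_iff₀ (by positivity) (by positivity)]
      have i1 : α * δ ^ 3 * γ ^ 3 ≤ 1 * γ ^ 2 :=
        mul_le_mul hαδ hγ32 (by positivity) (by norm_num)
      calc σ * (α * δ ^ 3 * γ ^ 3) ≤ σ * (1 * γ ^ 2) := mul_le_mul_of_nonneg_left i1 hs0.le
        _ ≤ 2048 * σ * γ ^ 2 := by nlinarith [mul_pos hs0 (pow_pos hγ0 2)]
    · rw [k3, div_le_div_iff₀ (by positivity) (by positivity)]
      have i1 : α * δ ^ 3 * γ ^ 2 ≤ δ := by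
        have h2 : α * δ ^ 2 ≤ 1 * 1 := mul_le_mul hα1 hδ2 (by positivity) (by norm_num)
        have h3 : α * δ ^ 2 * γ ^ 2 ≤ 1 * 1 :=
          mul_le_mul (by linarith) hγ2 (by positivity) (by norm_num)
        calc α * δ ^ 3 * γ ^ 2 = (α * δ ^ 2 * γ ^ 2) * δ := by ring
          _ ≤ (1 * 1) * δ := mul_le_mul_of_nonneg_right h3 hδ0.le
          _ = δ := by ring
      nlinarith

end Pool.Agent.OneSided
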